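import Pool.Agent.X238.DW.Stm2
import Pool.Agent.X55.DW.ST2

/-! Part ST22 of project DW: one step in the damping, for any Hilbert space (the proof of
`Pool.Agent.X55.DW.ST2` with `V` in the place of the euclidean space). -/

set_option autoImplicit false

namespace Pool.Agent.X168.DW

open MeasureTheory Set Filter Topology Pool.Agent.X238.DW Pool.Agent.X55.DW.ST2

universe v

theorem t_ST22 : S_ST22.{v} := by
  intro V _ _ _ γ C hγ hC
  refine ⟨∫ s in Ioi (0 : ℝ), (C / γ ^ 2 + C) * Real.exp (-(γ / 2 * s)), ?_⟩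
  intro c h hc hh g g' hg hg' h0 hb hY
  have hi := int_g hγ hg hb
  have hw := int_exp (half_pos hγ) (C / γ ^ 2 + C)
  have hw0 : ∀ s : ℝ, 0 ≤ (C / γ ^ 2 + C) * Real.exp (-(γ / 2 * s)) := fun s => by positivity
  set W := ∫ s in Ioi (0 : ℝ), (C / γ ^ 2 + C) * Real.exp (-(γ / 2 * s)) with hW
  have hW0 : 0 ≤ W := integral_nonneg fun s => hw0 s
  set Gi := ∫ r in Ioi (0 : ℝ), ‖g r‖ with hGi
  have hGi0 : 0 ≤ Gi := integral_nonneg fun s => norm_nonneg _
  by_cases hint : IntegrableOn (fun s => ‖g' s‖) (Ioi 0)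
  swap
  · rw [integral_undef hint]
    positivity
  have c2 : Continuous (fun r => om c r * ‖g r‖) := (om_cont c).mul hg.norm
  set K : ℝ → ℝ := fun s => ∫ r in (0 : ℝ)..s, om c r * ‖g r‖ with hK
  have hKd : ∀ s, HasDerivAt K (om c s * ‖g s‖) s := fun s =>
    (c2.integral_hasStrictDerivAt 0 s).hasDerivAt
  have hKc : Continuous K := continuous_iff_continuousAt.2 fun s => (hKd s).continuousAt
  set D : ℝ → ℝ := fun s => Real.exp (-(c * s / 2)) / 2 * (Gi + K s) - s / 2 * ‖g s‖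
    + 1 / c * ‖g s‖ with hD
  have hDc : Continuous D := by
    rw [hD]
    have := hg.norm
    fun_prop
  have hPd : ∀ s, HasDerivAt (fun s => -(1 / c) * (Real.exp (-(c * s / 2)) * (Gi + K s))) (D s)
      s := by
    intro s
    have d1 : HasDerivAt (fun s : ℝ => -(c * s / 2)) (-(c / 2)) s := by
      have h := (((hasDerivAt_id' s).const_mul c).div_const 2).fun_neg
      rw [mul_one] at h
      exact h
    have d2 : HasDerivAt (fun s => -(1 / c) * (Real.exp (-(c * s / 2)) * (Gi + K s)))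
        (-(1 / c) * (Real.exp (-(c * s / 2)) * -(c / 2) * (Gi + K s)
          + Real.exp (-(c * s / 2)) * (om c s * ‖g s‖))) s :=
      ((d1.exp.mul ((hKd s).const_add Gi)).const_mul (-(1 / c)))
    refine d2.congr_deriv ?_
    change _ = Real.exp (-(c * s / 2)) / 2 * (Gi + K s) - s / 2 * ‖g s‖ + 1 / c * ‖g s‖
    rw [om]
    have e : Real.exp (-(c * s / 2)) * Real.exp (c * s / 2) = 1 := by
      rw [← Real.exp_add]; simp
    have hc' := hc.ne'
    have : Real.exp (-(c * s / 2)) * ((c * s / 2 - 1) * Real.exp (c * s / 2) * ‖g s‖)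
        = (c * s / 2 - 1) * ‖g s‖ := by
      calc _ = (Real.exp (-(c * s / 2)) * Real.exp (c * s / 2)) * ((c * s / 2 - 1) * ‖g s‖) := by
            ring
        _ = _ := by rw [e, one_mul]
    rw [this]
    field_simp
    ring
  have hstep : ∀ T : ℝ, 0 ≤ T → ∫ s in (0 : ℝ)..T, ‖g' s‖
      ≤ (∫ s in (0 : ℝ)..T, ‖g s‖) + h / c * (Gi - ∫ s in (0 : ℝ)..T, ‖g s‖) + h ^ 2 * W := by
    intro T hT
    have i1 : IntervalIntegrable (fun s => ‖g s‖) volume 0 T := hg.norm.intervalIntegrable _ _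
    have i2 : IntervalIntegrable D volume 0 T := hDc.intervalIntegrable _ _
    have cw : Continuous (fun s : ℝ => (C / γ ^ 2 + C) * Real.exp (-(γ / 2 * s))) := by fun_prop
    have i3 : IntervalIntegrable (fun s : ℝ => (C / γ ^ 2 + C) * Real.exp (-(γ / 2 * s))) volume
      0 T := cw.intervalIntegrable _ _
    have m1 : ∫ s in (0 : ℝ)..T, ‖g' s‖ ≤ ∫ s in (0 : ℝ)..T, (‖g s‖ - h / c * ‖g s‖ + h * D s
        + h ^ 2 * ((C / γ ^ 2 + C) * Real.exp (-(γ / 2 * s)))) := by
      apply intervalIntegral.integral_mono_on hT (hg'.norm.intervalIntegrable _ _)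
      · exact (((i1.sub (i1.const_mul _)).add (i2.const_mul _)).add (i3.const_mul _))
      · intro s hs
        exact pt hγ hC hc hh hg h0 hb hY hs.1
    have m2 : ∫ s in (0 : ℝ)..T, (‖g s‖ - h / c * ‖g s‖ + h * D s
        + h ^ 2 * ((C / γ ^ 2 + C) * Real.exp (-(γ / 2 * s))))
        = (∫ s in (0 : ℝ)..T, ‖g s‖) - h / c * (∫ s in (0 : ℝ)..T, ‖g s‖)
          + h * (∫ s in (0 : ℝ)..T, D s)
          + h ^ 2 * ∫ s in (0 : ℝ)..T, (C / γ ^ 2 + C) * Real.exp (-(γ / 2 * s)) := by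
      rw [intervalIntegral.integral_add ((i1.sub (i1.const_mul _)).add (i2.const_mul _))
        (i3.const_mul _), intervalIntegral.integral_add (i1.sub (i1.const_mul _))
        (i2.const_mul _), intervalIntegral.integral_sub i1 (i1.const_mul _),
        intervalIntegral.integral_const_mul, intervalIntegral.integral_const_mul,
        intervalIntegral.integral_const_mul]
    have m3 : ∫ s in (0 : ℝ)..T, D s = -(1 / c) * (Real.exp (-(c * T / 2)) * (Gi + K T))
        - -(1 / c) * (Real.exp (-(c * 0 / 2)) * (Gi + K 0)) :=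
      intervalIntegral.integral_eq_sub_of_hasDerivAt (fun s _ => hPd s) i2
    have m4 : K 0 = 0 := by simp [hK]
    have m5 : 0 ≤ Real.exp (-(c * T / 2)) * (Gi + K T) :=
      mul_nonneg (Real.exp_pos _).le (Kpos hc hg hi h0 hT)
    have m6 : ∫ s in (0 : ℝ)..T, D s ≤ 1 / c * Gi := by
      rw [m3, m4]
      have : 0 ≤ 1 / c * (Real.exp (-(c * T / 2)) * (Gi + K T)) := by positivity
      simp only [mul_zero, zero_div, neg_zero, Real.exp_zero, one_mul, add_zero]
      linarith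
    have m7 : ∫ s in (0 : ℝ)..T, (C / γ ^ 2 + C) * Real.exp (-(γ / 2 * s)) ≤ W := by
      rw [intervalIntegral.integral_of_le hT, hW]
      exact setIntegral_mono_set hw (ae_of_all _ hw0)
        (LE.le.eventuallyLE Ioc_subset_Ioi_self)
    calc ∫ s in (0 : ℝ)..T, ‖g' s‖ ≤ _ := m1
      _ = _ := m2
      _ ≤ (∫ s in (0 : ℝ)..T, ‖g s‖) - h / c * (∫ s in (0 : ℝ)..T, ‖g s‖)
          + h * (1 / c * Gi) + h ^ 2 * W := by
          gcongr
      _ = _ := by ring
  have t1 : Tendsto (fun T : ℝ => ∫ s in (0 : ℝ)..T, ‖g' s‖) atTop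
      (𝓝 (∫ s in Ioi (0 : ℝ), ‖g' s‖)) := intervalIntegral_tendsto_integral_Ioi 0 hint tendsto_id
  have t2 : Tendsto (fun T : ℝ => ∫ s in (0 : ℝ)..T, ‖g s‖) atTop (𝓝 Gi) :=
    intervalIntegral_tendsto_integral_Ioi 0 hi.norm tendsto_id
  have t3 : Tendsto (fun T : ℝ => (∫ s in (0 : ℝ)..T, ‖g s‖)
      + h / c * (Gi - ∫ s in (0 : ℝ)..T, ‖g s‖) + h ^ 2 * W) atTop
      (𝓝 (Gi + h / c * (Gi - Gi) + h ^ 2 * W)) :=
    (t2.add ((tendsto_const_nhds.sub t2).const_mul _)).add tendsto_const_nhds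
  have := le_of_tendsto_of_tendsto t1 t3 ((eventually_ge_atTop 0).mono hstep)
  rw [sub_self, mul_zero, add_zero] at this
  linarith

end Pool.Agent.X168.DW
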