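import Mathlib
import Pool.Agent.X238.DW.Stm

set_option autoImplicit false

namespace Pool.Agent.X168.DW

open MeasureTheory Set Filter Topology Pool.Agent.X238.DW

theorem t_TEL : S_TEL := by
  intro Φ c1 c2 C h12 H
  have key : ∀ N : ℕ, 0 < N → Φ c2 ≤ Φ c1 + C * (c2 - c1) ^ 2 * (1 / (N : ℝ)) := by
    intro N hN
    have hN' : (0 : ℝ) < N := by exact_mod_cast hN
    set h : ℝ := (c2 - c1) / N with hh
    have hh0 : 0 ≤ h := div_nonneg (by linarith) hN'.le
    have hNh : (N : ℝ) * h = c2 - c1 := by rw [hh]; field_simp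
    have step : ∀ k : ℕ, k ≤ N → Φ (c1 + k * h) ≤ Φ c1 + k * (C * h ^ 2) := by
      intro k
      induction k with
      | zero => intro _; simp
      | succ k ih =>
        intro hk
        have h1 := ih (by omega)
        have hkN : ((k + 1 : ℕ) : ℝ) ≤ N := by exact_mod_cast hk
        have h2 : ((k + 1 : ℕ) : ℝ) * h ≤ c2 - c1 := by
          rw [← hNh]; exact mul_le_mul_of_nonneg_right hkN hh0
        have h3 := H (c1 + k * h) h (by have : 0 ≤ (k : ℝ) * h := by positivity
                                        linarith) hh0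
          (by push_cast at h2; linarith)
        have e1 : c1 + (k : ℝ) * h + h = c1 + ((k + 1 : ℕ) : ℝ) * h := by push_cast; ring
        rw [e1] at h3
        push_cast at h3 ⊢
        linarith
    have h4 := step N le_rfl
    rw [hNh] at h4
    have e2 : c1 + (c2 - c1) = c2 := by ring
    rw [e2] at h4
    have e3 : (N : ℝ) * (C * h ^ 2) = C * (c2 - c1) ^ 2 * (1 / (N : ℝ)) := by
      rw [hh]; field_simp
    rw [e3] at h4
    exact h4
  have lim : Tendsto (fun N : ℕ => Φ c1 + C * (c2 - c1) ^ 2 * (1 / (N : ℝ))) atTop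
      (𝓝 (Φ c1 + C * (c2 - c1) ^ 2 * 0)) :=
    (tendsto_one_div_atTop_nhds_zero_nat.const_mul _).const_add _
  rw [mul_zero, add_zero] at lim
  refine ge_of_tendsto lim ?_
  filter_upwards [eventually_gt_atTop 0] with N hN
  exact key N hN

theorem cut_nonneg (n : ℕ) (t : ℝ) : 0 ≤ cut n t := le_max_left _ _

theorem cut_le_one (n : ℕ) (t : ℝ) : cut n t ≤ 1 := max_le zero_le_one (min_le_left _ _)

theorem cut_cont (n : ℕ) : Continuous (cut n) := by
  unfold cut
  fun_prop

theorem cut_tendsto (t : ℝ) : Tendsto (fun n : ℕ => cut n t) atTop (𝓝 1) := by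
  refine tendsto_const_nhds.congr' ?_
  obtain ⟨m, hm⟩ := exists_nat_ge |t|
  filter_upwards [eventually_ge_atTop m] with n hn
  have h1 : (m : ℝ) ≤ n := by exact_mod_cast hn
  have h2 : (1 : ℝ) ≤ n + 1 - |t| := by linarith
  unfold cut
  rw [min_eq_left h2, max_eq_right zero_le_one]

theorem t_LIX : S_LIX := by
  intro d g γ C B hγ hg hb hB
  have hint : Integrable (fun s : ℝ => C * Real.exp (-(γ * s))) (volume.restrict (Ioi (0 : ℝ))) := by
    have := (exp_neg_integrableOn_Ioi (0 : ℝ) hγ).const_mul C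
    refine this.congr ?_
    filter_upwards with s
    congr 2
    ring
  have hlim : Tendsto (fun n : ℕ => ∫ s in Ioi (0 : ℝ),
      cut n (-s) * (‖g s‖ ^ 2 / (‖g s‖ + 1 / (n + 1)))) atTop (𝓝 (∫ s in Ioi (0 : ℝ), ‖g s‖)) := by
    refine tendsto_integral_of_dominated_convergence (fun s : ℝ => C * Real.exp (-(γ * s))) ?_ hint ?_ ?_
    · intro n
      refine Continuous.aestronglyMeasurable ?_
      refine ((cut_cont n).comp continuous_neg).mul ?_
      refine Continuous.div (by fun_prop) (by fun_prop) ?_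
      intro s
      have : (0 : ℝ) < 1 / ((n : ℝ) + 1) := by positivity
      have := norm_nonneg (g s)
      positivity
    · intro n
      filter_upwards [ae_restrict_mem measurableSet_Ioi] with s hs
      have h1 := hb s (le_of_lt hs)
      have hpos : (0 : ℝ) < 1 / ((n : ℝ) + 1) := by positivity
      have hn := norm_nonneg (g s)
      have h2 : ‖g s‖ ^ 2 / (‖g s‖ + 1 / ((n : ℝ) + 1)) ≤ ‖g s‖ := by
        rw [div_le_iff₀ (by positivity)]
        nlinarith
      have h3 : 0 ≤ ‖g s‖ ^ 2 / (‖g s‖ + 1 / ((n : ℝ) + 1)) := by positivity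
      rw [Real.norm_eq_abs, abs_of_nonneg (mul_nonneg (cut_nonneg n _) h3)]
      calc cut n (-s) * (‖g s‖ ^ 2 / (‖g s‖ + 1 / ((n : ℝ) + 1)))
          ≤ 1 * (‖g s‖ ^ 2 / (‖g s‖ + 1 / ((n : ℝ) + 1))) :=
            mul_le_mul_of_nonneg_right (cut_le_one n _) h3
        _ ≤ ‖g s‖ := by rw [one_mul]; exact h2
        _ ≤ _ := h1
    · filter_upwards with s
      have h1 : Tendsto (fun n : ℕ => ‖g s‖ ^ 2 / (‖g s‖ + 1 / ((n : ℝ) + 1))) atTop (𝓝 ‖g s‖) := by
        rcases eq_or_lt_of_le (norm_nonneg (g s)) with h0 | h0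
        · simp only [← h0]
          have : ∀ n : ℕ, (0 : ℝ) ^ 2 / (0 + 1 / ((n : ℝ) + 1)) = 0 := by intro n; simp
          simp only [this]
          exact tendsto_const_nhds
        · have h2 : Tendsto (fun n : ℕ => ‖g s‖ + 1 / ((n : ℝ) + 1)) atTop (𝓝 (‖g s‖ + 0)) :=
            tendsto_one_div_add_atTop_nhds_zero_nat.const_add _
          rw [add_zero] at h2
          have h3 := (tendsto_const_nhds (x := ‖g s‖ ^ 2)).div h2 h0.ne'
          have e : ‖g s‖ ^ 2 / ‖g s‖ = ‖g s‖ := by field_simp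
          rw [e] at h3
          exact h3
      have h4 := (cut_tendsto (-s)).mul h1
      rw [one_mul] at h4
      exact h4
  exact le_of_tendsto' hlim hB

end Pool.Agent.X168.DW
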